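import Pool.Agent.Lib.MP_e9741b_an.Construct

/-!
There is a closed subalgebra `X` of `H^∞` that is of type A but not of type B.

The example.  Let `D = H^∞ + C` be the smallest Douglas algebra larger than `H^∞`.  The functions
`F_b(z) = (2 - log (1 - z))^(i b)`, `b` real, belong to `H^∞`, are continuous on the circle without
the point `1`, and `conj F_b - F_(-b)` tends to `0` at `1`.  Put `f = (F_1 + F_√2) / 2`.  The cluster
set of `f` at `1` is the closed unit disc.  Let `X` be the set of the `g` in `H^∞` which are
continuous on the circle without `1` and such that `g - r ∘ f` tends to `0` at `1` for some `r` in
the disc algebra (in the formal proof `f` is replaced inside `r` by a function `phi` which is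
asymptotic to `f` and takes its values in the closed unit disc).

* `X ⊆ QD`, and `CD` is the set of the continuous functions because the inner functions invertible in
  `H^∞ + C` are continuous;
* the characters of `X` over a point of the circle other than `1` are the evaluations; those over the
  point `1` are the `g ↦ r(w)`, `|w| ≤ 1`, and are limits of evaluations at points of the circle
  tending to `1`.  Each evaluation at a point other than `1` is a peak point, so the Shilov boundary
  is the set of all characters over the circle;
* conditions 3 and 4 follow from the maximum principle and from the fact that a function of the disc
  algebra without zeros on the closed disc is invertible there;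
* if `X = V ∩ H^∞` with `V` closed and self-adjoint then `V` contains `C`, `conj f` and
  `g = (F_(-1) + F_(-√2)) / 2`, so `g ∈ X`, which forces `conj w` to be in the disc algebra.
-/

set_option autoImplicit false

namespace Pool.Agent.Results.MP_e9741b_an.TypeANotTypeB

open Pool.Agent.Lib.MP_e9741b_an

/-- There is a closed subalgebra of `H^∞` of type A which is not of type B. -/
theorem result : ∃ X : Subalgebra ℂ Linf, IsTypeA X ∧ ¬ IsTypeB X :=
  main_of_data theData

end Pool.Agent.Results.MP_e9741b_an.TypeANotTypeB
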